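import Mathlib
import Pool.Agent.Lib37.Good

set_option autoImplicit false
open Filter Topology

namespace Pool.Agent.Results.MP_48dd86_gt.CPScatteredImages

/-- A space is countably paracompact if every countable open cover has a locally finite open
refinement. -/
def CountablyParacompact (Z : Type) [TopologicalSpace Z] : Prop :=
  ∀ V : ℕ → Set Z, (∀ n, IsOpen (V n)) → (⋃ n, V n) = Set.univ →
    ∃ (β : Type) (t : β → Set Z), (∀ b, IsOpen (t b)) ∧ (⋃ b, t b) = Set.univ ∧
      LocallyFinite t ∧ ∀ b, ∃ n, t b ⊆ V n

/-- A space `Z` is CP-scattered if every nonempty closed subspace `B` of `Z` contains a point `z`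
having a closed neighbourhood `N` in `Z` such that the subspace `N ∩ B` is countably
paracompact. -/
def CPScattered (Z : Type) [TopologicalSpace Z] : Prop :=
  ∀ B : Set Z, IsClosed B → B.Nonempty →
    ∃ z ∈ B, ∃ N ∈ 𝓝 z, IsClosed N ∧ CountablyParacompact ↥(N ∩ B)

/-- Let `X` be a normal space which embeds into some `c₀(Γ)` with the pointwise topology and let
`f : X → Y` be a perfect map onto `Y`.  If `X` is CP-scattered, or if the closure of the set of
points of `Y` with more than one preimage is CP-scattered, then `Y` embeds into some `c₀(Γ')` with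
the pointwise topology. -/
theorem result :
    ∀ (X Y : Type) [TopologicalSpace X] [TopologicalSpace Y] [NormalSpace X],
      (∃ (Γ : Type) (e : X → (Γ → ℝ)),
          Topology.IsEmbedding e ∧ ∀ x, Tendsto (e x) cofinite (𝓝 0)) →
      ∀ f : X → Y, IsProperMap f → Function.Surjective f →
        (CPScattered X ∨
          CPScattered ↥(closure {y : Y | ∃ x x' : X, x ≠ x' ∧ f x = y ∧ f x' = y})) →
        ∃ (Γ' : Type) (g : Y → (Γ' → ℝ)),
          Topology.IsEmbedding g ∧ ∀ y, Tendsto (g y) cofinite (𝓝 0) := by
  intro X Y _ _ _ hX f hf hsurj h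
  exact Lib37.embC0_main hX hf hsurj h

end Pool.Agent.Results.MP_48dd86_gt.CPScatteredImages
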