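import Mathlib
import Pool.Agent.Lib37.Good

set_option autoImplicit false
open Filter Topology

namespace Pool.Agent.Results.MP_48dd86_gt.CoveringCriterion

/-- A cozero set: the set where some continuous real function does not vanish. -/
def IsCozero {Y : Type} [TopologicalSpace Y] (U : Set Y) : Prop :=
  ∃ g : C(Y, ℝ), U = {y | g y ≠ 0}

/-- Every countable increasing open cover `V` of `Y` has a refinement consisting of cozero sets
which is the union of countably many point-finite families `W m`. -/
def CoversRefine (Y : Type) [TopologicalSpace Y] : Prop :=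
  ∀ V : ℕ → Set Y, (∀ n, IsOpen (V n)) → Monotone V → (⋃ n, V n) = Set.univ →
    ∃ W : ℕ → Set (Set Y), (∀ m, ∀ U ∈ W m, IsCozero U ∧ ∃ n, U ⊆ V n) ∧
      (∀ m y, {U | U ∈ W m ∧ y ∈ U}.Finite) ∧ ∀ y, ∃ m, ∃ U ∈ W m, y ∈ U

/-- Let `X` embed into some `c₀(Γ)` with the pointwise topology and let `f : X → Y` be a perfect
map onto `Y`, where `X` or `Y` is normal.  Then `Y` embeds into some `c₀(Γ')` with the pointwise
topology if and only if every countable increasing open cover of `Y` has a `σ`-point-finite
refinement consisting of cozero sets. -/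
theorem result :
    ∀ (X Y : Type) [TopologicalSpace X] [TopologicalSpace Y],
      (∃ (Γ : Type) (e : X → (Γ → ℝ)),
          Topology.IsEmbedding e ∧ ∀ x, Tendsto (e x) cofinite (𝓝 0)) →
      ∀ f : X → Y, IsProperMap f → Function.Surjective f → (NormalSpace X ∨ NormalSpace Y) →
        ((∃ (Γ' : Type) (g : Y → (Γ' → ℝ)),
          Topology.IsEmbedding g ∧ ∀ y, Tendsto (g y) cofinite (𝓝 0)) ↔ CoversRefine Y) := by
  intro X Y _ _ hX f hf hsurj h
  have : NormalSpace Y := by
    rcases h with h | h
    · exact Lib37.normal_image hf.continuous hf.isClosedMap hsurj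
    · exact h
  exact ⟨fun hY => Lib37.EmbC0.coversPF hY, fun hY => Lib37.embC0_of_coversPF hX hf hsurj hY⟩

end Pool.Agent.Results.MP_48dd86_gt.CoveringCriterion
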