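import Mathlib
import Pool.Agent.H35MR.Gdelta

set_option autoImplicit false
open Filter Topology

namespace Pool.Agent.Results.MP_48dd86_gt.GdeltaSums

/-- `Z` embeds into some `c₀(Γ)` with the pointwise topology. -/
def EmbedsC0 (Z : Type) [TopologicalSpace Z] : Prop :=
  ∃ (Γ : Type) (e : Z → (Γ → ℝ)), Topology.IsEmbedding e ∧ ∀ z, Tendsto (e z) cofinite (𝓝 0)

/-- Let `X` embed into some `c₀(Γ)` with the pointwise topology, let `f : X → Y` be a perfect map
onto `Y`, and let `X` or `Y` be normal.  Suppose that every nonempty closed subset `B` of `Y`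
contains a point with a closed neighbourhood `N` in `Y` such that `N ∩ B` is covered by countably
many closed `Gδ`-subsets of `Y`, each of which embeds into some `c₀(Γ)`.  Then `Y` embeds into some
`c₀(Γ')`. -/
theorem result :
    ∀ (X Y : Type) [TopologicalSpace X] [TopologicalSpace Y], EmbedsC0 X →
      ∀ f : X → Y, IsProperMap f → Function.Surjective f → (NormalSpace X ∨ NormalSpace Y) →
        (∀ B : Set Y, IsClosed B → B.Nonempty → ∃ y ∈ B, ∃ N ∈ 𝓝 y, IsClosed N ∧
          ∃ L : ℕ → Set Y, (∀ n, IsClosed (L n) ∧ IsGδ (L n) ∧ EmbedsC0 ↥(L n)) ∧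
            N ∩ B ⊆ ⋃ n, L n) →
        EmbedsC0 Y := by
  intro X Y _ _ hX f hf hsurj h hB
  have : NormalSpace Y := by
    rcases h with h | h
    · exact Lib37.normal_image hf.continuous hf.isClosedMap hsurj
    · exact h
  exact H35MR.gdelta_main hX hf hsurj hB

end Pool.Agent.Results.MP_48dd86_gt.GdeltaSums
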