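import Mathlib
import Pool.Agent.H35MR.Main

set_option autoImplicit false
open Filter Topology

namespace Pool.Agent.Results.MP_48dd86_gt.OpenPerfectImages

/-- Let `X` be any space which embeds into some `c₀(Γ)` with the pointwise topology (normal or
not), and let `f : X → Y` be an open perfect map onto `Y`.  Then `Y` embeds into some `c₀(Γ')` with
the pointwise topology. -/
theorem result :
    ∀ (X Y : Type) [TopologicalSpace X] [TopologicalSpace Y],
      (∃ (Γ : Type) (e : X → (Γ → ℝ)),
          Topology.IsEmbedding e ∧ ∀ x, Tendsto (e x) cofinite (𝓝 0)) →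
      ∀ f : X → Y, IsProperMap f → Function.Surjective f → IsOpenMap f →
        ∃ (Γ' : Type) (g : Y → (Γ' → ℝ)),
          Topology.IsEmbedding g ∧ ∀ y, Tendsto (g y) cofinite (𝓝 0) := by
  intro X Y _ _ hX f hf hsurj ho
  obtain ⟨Γ, e, he, h0⟩ := hX
  exact H35MR.open_image he h0 hf ho hsurj

end Pool.Agent.Results.MP_48dd86_gt.OpenPerfectImages
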